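import Pool.Agent.Q16.Clon.Det
import Pool.Agent.Q16.Noeth.Acc

set_option autoImplicit false

namespace Pool.Agent.Q16.Clon

universe u₁ u₂ u₃

section

variable (K : Type u₁) [Field K] (A : Type u₂) [AddCommGroup A] [Finite A]

/-- the character group with values in `Kˣ` -/
abbrev Ch : Type (max u₁ u₂) := Multiplicative A →* Kˣ

/-- product characters -/
def chi {k : ℕ} (φ : Fin k → Ch K A) : (Fin k → A) → K :=
  fun x => ((∏ i, φ i (Multiplicative.ofAdd (x i)) : Kˣ) : K)

/-- product characters as homomorphisms -/
def chiHom {k : ℕ} (φ : Fin k → Ch K A) : (Fin k → Multiplicative A) →* K :=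
  (Units.coeHom K).comp (∏ i, (φ i).comp (Pi.evalMonoidHom (fun _ => Multiplicative A) i))

theorem chiHom_apply {k : ℕ} (φ : Fin k → Ch K A) (x : Fin k → Multiplicative A) :
    chiHom K A φ x = ((∏ i, φ i (x i) : Kˣ) : K) := by
  simp [chiHom, MonoidHom.finsetProd_apply]

theorem chiHom_injective {k : ℕ} : Function.Injective (chiHom K A (k := k)) := by
  classical
  intro φ ψ h
  funext i
  refine MonoidHom.ext fun a => Units.ext ?_
  have h1 := DFunLike.congr_fun h (Pi.mulSingle i a)
  rw [chiHom_apply, chiHom_apply] at h1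
  have key : ∀ φ : Fin k → Ch K A, (∏ j, φ j (Pi.mulSingle (M := fun _ => Multiplicative A) i a j)) =
      φ i a := by
    intro φ
    rw [Finset.prod_eq_single i]
    · simp
    · intro j _ hj
      rw [Pi.mulSingle_eq_of_ne hj, map_one]
    · intro hc; exact absurd (Finset.mem_univ i) hc
  rw [key, key] at h1
  exact h1

theorem chi_linearIndependent (k : ℕ) :
    LinearIndependent K (fun φ : Fin k → Ch K A => chi K A φ) := by
  have h1 := linearIndependent_monoidHom (Fin k → Multiplicative A) K
  have h2 := h1.comp _ (chiHom_injective K A (k := k))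
  have h3 : (fun φ : Fin k → Ch K A => (chi K A φ : (Fin k → Multiplicative A) → K)) =
      (fun f : (Fin k → Multiplicative A) →* K => (f : (Fin k → Multiplicative A) → K)) ∘
        chiHom K A (k := k) := by
    funext φ x
    exact (chiHom_apply K A φ x).symm
  have h4 : LinearIndependent K (fun φ : Fin k → Ch K A =>
      (chi K A φ : (Fin k → Multiplicative A) → K)) := by
    rw [h3]; exact h2
  exact h4

theorem chi_span [HasEnoughRootsOfUnity K (Monoid.exponent (Multiplicative A))] (k : ℕ) :
    Submodule.span K (Set.range (fun φ : Fin k → Ch K A => chi K A φ)) = ⊤ := by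
  classical
  have : Fintype A := Fintype.ofFinite A
  have hfin : Finite (Ch K A) := inferInstance
  have : Fintype (Fin k → Ch K A) := Fintype.ofFinite _
  apply (chi_linearIndependent K A k).span_eq_top_of_card_eq_finrank'
  rw [Module.finrank_fintype_fun_eq_card, ← Nat.card_eq_fintype_card, Nat.card_fun,
    CommGroup.card_monoidHom_of_hasEnoughRootsOfUnity, ← Nat.card_eq_fintype_card, Nat.card_fun]
  rfl

/-- the matrix summing over the fibres of `g` -/
def fibMat {k l : ℕ} (g : Fin l → Fin k) : Fin k → Fin l → ℤ := fun i j => if g j = i then 1 else 0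

theorem pull_chi {k l : ℕ} (g : Fin l → Fin k) (φ : Fin k → Ch K A) :
    pull K K A (fibMat g) (chi K A φ) = chi K A (φ ∘ g) := by
  classical
  funext x
  rw [pull_apply]
  unfold chi
  congr 1
  have h1 : ∀ i, φ i (Multiplicative.ofAdd (∑ j, fibMat g i j • x j)) =
      ∏ j with g j = i, φ (g j) (Multiplicative.ofAdd (x j)) := by
    intro i
    rw [ofAdd_sum, map_prod, Finset.prod_filter]
    apply Finset.prod_congr rfl
    intro j _
    by_cases h : g j = i
    · simp [fibMat, h]
    · simp [fibMat, h]
  simp only [h1]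
  rw [Finset.prod_fiberwise]
  rfl

theorem acc_K [HasEnoughRootsOfUnity K (Monoid.exponent (Multiplicative A))] :
    WellFoundedGT {C : ∀ k : ℕ, Submodule K ((Fin (k + 1) → A) → K) // Cl C} := by
  rw [wellFoundedGT_iff_monotone_chain_condition]
  intro a
  have hfin : Finite (Ch K A) := inferInstance
  let Φ : ∀ k : ℕ, ((Fin (k + 1) → Ch K A) →₀ K) →ₗ[K] ((Fin (k + 1) → A) → K) := fun k =>
    Finsupp.linearCombination K (fun φ => chi K A φ)
  have hΦ : ∀ k, Function.Surjective (Φ k) := by
    intro k
    rw [← LinearMap.range_eq_top, Finsupp.range_linearCombination, chi_span]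
  obtain ⟨n, hn⟩ := Noeth.acc_words (J := ℕ) (fun k => k + 1) (ι := Unit) (α := Ch K A)
    (fun k => Fin (k + 1) → Ch K A) (fun _ φ => ((), φ))
    (fun k φ ψ h => congrArg Prod.snd h)
    (fun k l g φ => φ ∘ g) (fun k l g _ φ => rfl)
    (fun n k => ((a n).1 k).comap (Φ k))
    (fun n m hnm k => Submodule.comap_mono (a.monotone hnm k))
    (by
      intro n k l g _ v hv
      rw [Submodule.mem_comap] at hv ⊢
      have h1 : Φ l (v.mapDomain (fun φ => φ ∘ g)) = pull K K A (fibMat g) (Φ k v) := by
        simp only [Φ]
        rw [Finsupp.linearCombination_mapDomain, LinearMap.map_finsupp_linearCombination]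
        congr 1
        congr 1
        funext φ
        exact (pull_chi K A g φ).symm
      rw [h1]
      exact (a n).2 k l _ _ hv)
  refine ⟨n, fun m hm => ?_⟩
  apply Subtype.ext
  funext k
  have h2 := congrFun (hn m hm) k
  exact (Submodule.comap_injective_of_surjective (hΦ k) h2).symm

/-- annihilator in the group of finitely supported functions -/
def ann {X : Type u₃} (C : Submodule K (X → K)) : Submodule K (X →₀ K) where
  carrier := {μ | ∀ f ∈ C, Finsupp.linearCombination K f μ = 0}
  zero_mem' := fun f _ => map_zero _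
  add_mem' := fun h1 h2 f hf => by rw [map_add, h1 f hf, h2 f hf, add_zero]
  smul_mem' := fun c _ h1 f hf => by rw [map_smul, h1 f hf, smul_zero]

theorem ann_anti {X : Type u₃} {C D : Submodule K (X → K)} (h : C ≤ D) : ann K D ≤ ann K C :=
  fun _ hμ f hf => hμ f (h hf)

theorem ann_inj {X : Type u₃} [Finite X] {C D : Submodule K (X → K)} (h : ann K C ≤ ann K D) :
    D ≤ C := by
  classical
  have : Fintype X := Fintype.ofFinite X
  intro f hf
  by_contra hfC
  obtain ⟨L, hL1, hL2⟩ := Submodule.exists_le_ker_of_notMem hfC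
  let μ : X →₀ K := Finsupp.equivFunOnFinite.symm (fun x => L (Pi.single x 1))
  have key : ∀ g : X → K, Finsupp.linearCombination K g μ = L g := by
    intro g
    rw [Finsupp.linearCombination_apply, Finsupp.sum_fintype _ _ (fun i => by simp)]
    have hg : g = ∑ x, g x • (Pi.single x (1 : K) : X → K) := by
      funext y
      simp [Finset.sum_apply, Pi.single_apply]
    conv_rhs => rw [hg]
    rw [map_sum]
    apply Finset.sum_congr rfl
    intro x _
    rw [map_smul]
    simp [μ, mul_comm]
  have hμ : μ ∈ ann K C := fun g hg => by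
    rw [key]
    exact hL2 hg
  have := h hμ f hf
  rw [key] at this
  exact hL1 this

theorem dcc_K : WellFoundedLT {C : ∀ k : ℕ, Submodule K ((Fin (k + 1) → A) → K) // Cl C} := by
  have hgt : WellFoundedGT ({C : ∀ k : ℕ, Submodule K ((Fin (k + 1) → A) → K) // Cl C})ᵒᵈ := by
    rw [wellFoundedGT_iff_monotone_chain_condition]
    intro a
    obtain ⟨n, hn⟩ := Noeth.acc_words (J := ℕ) (fun k => k + 1) (ι := Unit) (α := A)
      (fun k => Fin (k + 1) → A) (fun _ φ => ((), φ))
      (fun k φ ψ h => congrArg Prod.snd h)
      (fun k l g φ => φ ∘ g) (fun k l g _ φ => rfl)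
      (fun n k => ann K ((OrderDual.ofDual (a n)).1 k))
      (fun n m hnm k => ann_anti K (a.monotone hnm k))
      (by
        intro n k l g _ μ hμ f hf
        rw [Finsupp.linearCombination_mapDomain]
        apply hμ
        have h1 := (OrderDual.ofDual (a n)).2 l k (mapMat g) f hf
        rw [pull_mapMat] at h1
        exact h1)
    refine ⟨n, fun m hm => ?_⟩
    have h3 : ∀ k, (OrderDual.ofDual (a m)).1 k = (OrderDual.ofDual (a n)).1 k := by
      intro k
      have h2 := congrFun (hn m hm) k
      exact le_antisymm (ann_inj K h2.ge) (ann_inj K h2.le)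
    have h4 : OrderDual.ofDual (a m) = OrderDual.ofDual (a n) := Subtype.ext (funext h3)
    exact h4.symm
  exact ⟨hgt.wf⟩

theorem det_K [HasEnoughRootsOfUnity K (Monoid.exponent (Multiplicative A))] : Det K K A :=
  det_of_wf K K A (acc_K K A) (dcc_K K A)

end

end Pool.Agent.Q16.Clon
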