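import Mathlib

set_option autoImplicit false

namespace Pool.Agent.Q16.Clon

universe u₁ u₂ u₃ u₄

/-- Finitary operations from `A` to `B` of arity at least one: `⟨n, f⟩` has arity `n + 1`. -/
abbrev Op (A : Type u₁) (B : Type u₂) : Type (max u₁ u₂) := Σ n : ℕ, ((Fin (n + 1) → A) → B)

/-- `g` is a term operation of the `T`-module `M`: `g x = ∑ i, t i • x i` for some `t`. -/
def IsTermOp (T : Type u₁) {M : Type u₂} [Ring T] [AddCommGroup M] [Module T M] {n : ℕ}
    (g : (Fin n → M) → M) : Prop :=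
  ∃ t : Fin n → T, ∀ x, g x = ∑ i, t i • x i

/-- Clonoids from the `R`-module `A` to the `S`-module `B`. -/
structure IsClonoid (R : Type u₁) (S : Type u₂) {A : Type u₃} {B : Type u₄} [Ring R] [Ring S]
    [AddCommGroup A] [Module R A] [AddCommGroup B] [Module S B] (C : Set (Op A B)) : Prop where
  /-- closure under permuting and identifying variables and adding dummy variables -/
  minor : ∀ (n k : ℕ) (f : (Fin (n + 1) → A) → B) (σ : Fin (n + 1) → Fin (k + 1)),
    (⟨n, f⟩ : Op A B) ∈ C → (⟨k, fun x => f (fun i => x (σ i))⟩ : Op A B) ∈ C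
  /-- closure under inserting term operations of `A` -/
  inner : ∀ (n k : ℕ) (f : (Fin (n + 1) → A) → B) (g : Fin (n + 1) → ((Fin (k + 1) → A) → A)),
    (⟨n, f⟩ : Op A B) ∈ C → (∀ i, IsTermOp R (g i)) →
      (⟨k, fun x => f (fun i => g i x)⟩ : Op A B) ∈ C
  /-- closure under applying term operations of `B` -/
  outer : ∀ (m k : ℕ) (h : (Fin (m + 1) → B) → B) (f : Fin (m + 1) → ((Fin (k + 1) → A) → B)),
    IsTermOp S h → (∀ i, (⟨k, f i⟩ : Op A B) ∈ C) →
      (⟨k, fun x => h (fun i => f i x)⟩ : Op A B) ∈ C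

end Pool.Agent.Q16.Clon
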