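import Mathlib

set_option autoImplicit false

namespace Pool.Agent.Q16.Clon

universe u₁ u₂ u₃

section

variable (R : Type u₁) [Ring R] (M : Type u₂) [AddCommGroup M] [Module R M]
  (A : Type u₃) [AddCommGroup A]

/-- pull-back of an operation along an integer matrix -/
def pull {k l : ℕ} (S : Fin k → Fin l → ℤ) : ((Fin k → A) → M) →ₗ[R] ((Fin l → A) → M) :=
  LinearMap.funLeft R M (fun x i => ∑ j, S i j • x j)

theorem pull_apply {k l : ℕ} (S : Fin k → Fin l → ℤ) (f : (Fin k → A) → M) (x : Fin l → A) :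
    pull R M A S f x = f (fun i => ∑ j, S i j • x j) := rfl

/-- the matrix of a map of index sets -/
def mapMat {k l : ℕ} (g : Fin k → Fin l) : Fin k → Fin l → ℤ := fun i j => if j = g i then 1 else 0

theorem pull_mapMat {k l : ℕ} (g : Fin k → Fin l) (f : (Fin k → A) → M) :
    pull R M A (mapMat g) f = fun x => f (x ∘ g) := by
  funext x
  rw [pull_apply]
  congr 1
  funext i
  simp [mapMat]

variable {R M A} in
/-- families closed under pull-back along integer matrices; level `k` is arity `k + 1` -/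
def Cl (C : ∀ k : ℕ, Submodule R ((Fin (k + 1) → A) → M)) : Prop :=
  ∀ k l (S : Fin (k + 1) → Fin (l + 1) → ℤ), ∀ f ∈ C k, pull R M A S f ∈ C l

variable {R M A}

theorem Cl.inf {C D : ∀ k : ℕ, Submodule R ((Fin (k + 1) → A) → M)} (hC : Cl C) (hD : Cl D) :
    Cl (fun k => C k ⊓ D k) := fun k l S f hf => ⟨hC k l S f hf.1, hD k l S f hf.2⟩

theorem Cl.sup {C D : ∀ k : ℕ, Submodule R ((Fin (k + 1) → A) → M)} (hC : Cl C) (hD : Cl D) :
    Cl (fun k => C k ⊔ D k) := by
  intro k l S f hf
  obtain ⟨g, hg, h, hh, rfl⟩ := Submodule.mem_sup.1 hf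
  rw [map_add]
  exact Submodule.add_mem_sup (hC k l S g hg) (hD k l S h hh)

theorem Cl.mem_iff {C : ∀ k : ℕ, Submodule R ((Fin (k + 1) → A) → M)} (hC : Cl C) {r t : ℕ}
    (h : r ≤ t) (f : (Fin (r + 1) → A) → M) :
    f ∈ C r ↔ pull R M A (mapMat (fun i : Fin (r + 1) => (Fin.castLE (by omega) i : Fin (t + 1)))) f
      ∈ C t := by
  constructor
  · exact hC r t _ f
  · intro hf
    have h2 := hC t r (mapMat (fun j : Fin (t + 1) =>
      (⟨min j r, by omega⟩ : Fin (r + 1)))) _ hf
    rw [pull_mapMat, pull_mapMat] at h2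
    have h3 : (fun x : Fin (r + 1) → A => f ((x ∘ fun j : Fin (t + 1) =>
        (⟨min j r, by omega⟩ : Fin (r + 1))) ∘ fun i : Fin (r + 1) =>
          (Fin.castLE (by omega) i : Fin (t + 1)))) = f := by
      funext x
      congr 1
      funext i
      simp only [Function.comp]
      congr 1
      apply Fin.ext
      simp only [Fin.val_castLE]
      have := i.2
      omega
    rw [h3] at h2
    exact h2

theorem level_eq {C D : ∀ k : ℕ, Submodule R ((Fin (k + 1) → A) → M)} (hC : Cl C) (hD : Cl D)
    {r t : ℕ} (h : r ≤ t) (he : D t = C t) : D r = C r := by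
  ext f
  rw [hC.mem_iff h, hD.mem_iff h, he]

variable (R M A) in
/-- every closed family is determined inside any larger closed family by a fixed level -/
def Det : Prop :=
  ∃ r, ∀ D C : (∀ k : ℕ, Submodule R ((Fin (k + 1) → A) → M)), Cl D → Cl C → D ≤ C →
    D r = C r → D = C

variable (R M A) in
theorem det_of_wf (hgt : WellFoundedGT {C : ∀ k : ℕ, Submodule R ((Fin (k + 1) → A) → M) // Cl C})
    (hlt : WellFoundedLT {C : ∀ k : ℕ, Submodule R ((Fin (k + 1) → A) → M) // Cl C}) :
    Det R M A := by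
  let T : Type _ := {C : ∀ k : ℕ, Submodule R ((Fin (k + 1) → A) → M) // Cl C}
  let S : Set T := {F | ∃ r, ∀ D C : T, D ≤ C → C ≤ F → D.1 r = C.1 r → D = C}
  have hbot : (⟨fun _ => ⊥, fun k l S f hf => by
      rw [Submodule.mem_bot] at hf ⊢
      rw [hf, map_zero]⟩ : T) ∈ S := by
    refine ⟨0, fun D C h1 h2 _ => ?_⟩
    apply le_antisymm h1
    intro k f hf
    have := h2 k hf
    rw [Submodule.mem_bot] at this
    rw [this]
    exact Submodule.zero_mem _
  obtain ⟨F, hF, hmax⟩ := hgt.wf.has_min S ⟨_, hbot⟩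
  have htop : F = ⟨fun _ => ⊤, fun _ _ _ _ _ => Submodule.mem_top⟩ := by
    by_contra hne
    -- a minimal family strictly above `F`
    obtain ⟨F', hF', hmin⟩ := hlt.wf.has_min {G : T | F < G}
      ⟨⟨fun _ => ⊤, fun _ _ _ _ _ => Submodule.mem_top⟩,
        lt_of_le_of_ne (fun k f _ => Submodule.mem_top) hne⟩
    have hFF' : F < F' := hF'
    obtain ⟨r, hr⟩ := hF
    obtain ⟨s, hs⟩ : ∃ s, F.1 s ≠ F'.1 s := by
      by_contra hc
      push Not at hc
      exact hFF'.ne (Subtype.ext (funext hc))
    have ht : F.1 (max r s) ≠ F'.1 (max r s) := fun hc =>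
      hs (level_eq F'.2 F.2 (le_max_right r s) hc)
    have hF'S : F' ∈ S := by
      refine ⟨max r s, fun D C hDC hCF' hlev => ?_⟩
      -- intersections with F agree
      have hcap : ∀ k, D.1 k ⊓ F.1 k = C.1 k ⊓ F.1 k := by
        have := hr ⟨_, D.2.inf F.2⟩ ⟨_, C.2.inf F.2⟩
          (fun k => inf_le_inf_right _ (hDC k)) (fun k => inf_le_right) (by
            change D.1 r ⊓ F.1 r = C.1 r ⊓ F.1 r
            rw [level_eq C.2 D.2 (le_max_left r s) hlev])
        intro k
        exact congrFun (congrArg Subtype.val this) k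
      by_cases hCF : C ≤ F
      · apply le_antisymm hDC
        intro k f hf
        have : f ∈ C.1 k ⊓ F.1 k := ⟨hf, hCF k hf⟩
        rw [← hcap k] at this
        exact this.1
      · -- D is not contained in F
        have hsum : ∀ G : T, G ≤ F' → ¬ G ≤ F → ∀ k, F.1 k ⊔ G.1 k = F'.1 k := by
          intro G hG hGF
          have h1 : F < (⟨_, F.2.sup G.2⟩ : T) := by
            refine lt_of_le_not_ge (fun k => le_sup_left) ?_
            intro hc
            exact hGF (fun k => le_sup_right.trans (hc k))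
          have h2 : (⟨_, F.2.sup G.2⟩ : T) ≤ F' := fun k => sup_le (hFF'.le k) (hG k)
          have h3 := hmin _ h1
          have h4 : (⟨_, F.2.sup G.2⟩ : T) = F' := by
            by_contra hne
            exact h3 (lt_of_le_of_ne h2 hne)
          intro k
          exact congrFun (congrArg Subtype.val h4) k
        have hDF : ¬ D ≤ F := by
          intro hc
          have h1 := hsum C hCF' hCF (max r s)
          rw [← hlev, sup_eq_left.2 (hc _)] at h1
          exact ht h1
        apply le_antisymm hDC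
        intro k f hf
        have h1 : f ∈ F.1 k ⊔ D.1 k := by
          rw [hsum D (hDC.trans hCF') hDF k]
          exact hCF' k hf
        obtain ⟨g, hg, d, hd, rfl⟩ := Submodule.mem_sup.1 h1
        have h2 : g ∈ C.1 k ⊓ F.1 k := by
          refine ⟨?_, hg⟩
          have := Submodule.sub_mem _ hf (hDC k hd)
          rwa [add_sub_cancel_right] at this
        rw [← hcap k] at h2
        exact Submodule.add_mem _ h2.1 hd
    exact hmax F' hF'S hFF'
  obtain ⟨r, hr⟩ := hF
  refine ⟨r, fun D C hD hC hDC hlev => ?_⟩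
  have := hr ⟨D, hD⟩ ⟨C, hC⟩ hDC (by rw [htop]; exact fun k f _ => Submodule.mem_top) hlev
  exact congrArg Subtype.val this

end

end Pool.Agent.Q16.Clon
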