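import Pool.Agent.Q16.Clon.Chain

set_option autoImplicit false

namespace Pool.Agent.Q16.Clon

universe u₁ u₂ u₃ u₄ u₅

section

variable {A : Type u₁} [AddCommGroup A]

/-- Descent of the coefficients from an extension field to the prime field. -/
theorem det_descend (p : ℕ) [Fact p.Prime] (K : Type u₂) [Field K] [Algebra (ZMod p) K]
    (h : Det K K A) : Det ℤ (ZMod p) A := by
  obtain ⟨r, hr⟩ := h
  refine ⟨r, fun D C hD hC hDC hlev => ?_⟩
  let emb : ∀ k : ℕ, ((Fin (k + 1) → A) → ZMod p) → ((Fin (k + 1) → A) → K) := fun k f x =>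
    algebraMap (ZMod p) K (f x)
  let sp : (∀ k : ℕ, Submodule ℤ ((Fin (k + 1) → A) → ZMod p)) →
      ∀ k : ℕ, Submodule K ((Fin (k + 1) → A) → K) := fun E k =>
    Submodule.span K (emb k '' (E k : Set _))
  have hsp : ∀ E, Cl E → Cl (sp E) := by
    intro E hE k l S f hf
    have h1 : sp E k ≤ (sp E l).comap (pull K K A S) := by
      refine Submodule.span_le.2 ?_
      rintro _ ⟨g, hg, rfl⟩
      exact Submodule.subset_span ⟨pull ℤ (ZMod p) A S g, hE k l S g hg, rfl⟩
    exact h1 hf
  have h1 : sp D = sp C := by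
    apply hr _ _ (hsp D hD) (hsp C hC)
    · intro k
      exact Submodule.span_mono (Set.image_mono (hDC k))
    · simp only [sp, hlev]
  obtain ⟨π, hπ⟩ := LinearMap.exists_leftInverse_of_injective (Algebra.linearMap (ZMod p) K)
    (LinearMap.ker_eq_bot.2 (algebraMap (ZMod p) K).injective)
  have hπ1 : ∀ a : ZMod p, π (algebraMap (ZMod p) K a) = a := fun a => LinearMap.congr_fun hπ a
  have hsm : ∀ (k : ℕ) (c : ZMod p) (d : (Fin (k + 1) → A) → ZMod p), d ∈ D k →
      (fun x => c * d x) ∈ D k := by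
    intro k c d hd
    have h2 : (fun x => c * d x) = ((c.cast : ℤ)) • d := by
      funext x
      rw [Pi.smul_apply, zsmul_eq_mul, ZMod.intCast_zmod_cast]
    rw [h2]
    exact Submodule.smul_mem _ _ hd
  have key : ∀ (k : ℕ) (g : (Fin (k + 1) → A) → K), g ∈ sp D k → ∀ c : K,
      (fun x => π (c * g x)) ∈ D k := by
    intro k g hg
    induction hg using Submodule.span_induction with
    | mem g hg =>
      obtain ⟨d, hd, rfl⟩ := hg
      intro c
      have h3 : (fun x => π (c * emb k d x)) = fun x => π c * d x := by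
        funext x
        change π (c * algebraMap (ZMod p) K (d x)) = _
        rw [mul_comm c, ← Algebra.smul_def, map_smul, smul_eq_mul, mul_comm]
      rw [h3]
      exact hsm k _ d hd
    | zero =>
      intro c
      have h3 : (fun x : Fin (k + 1) → A => π (c * (0 : (Fin (k + 1) → A) → K) x)) = 0 := by
        funext x; simp
      rw [h3]
      exact Submodule.zero_mem _
    | add g g' _ _ h1 h2 =>
      intro c
      have h3 : (fun x : Fin (k + 1) → A => π (c * (g + g') x)) =
          (fun x => π (c * g x)) + fun x => π (c * g' x) := by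
        funext x; simp [mul_add]
      rw [h3]
      exact Submodule.add_mem _ (h1 c) (h2 c)
    | smul a g _ h1 =>
      intro c
      have h3 : (fun x : Fin (k + 1) → A => π (c * (a • g) x)) =
          (fun x => π ((c * a) * g x)) := by
        funext x; simp [mul_assoc]
      rw [h3]
      exact h1 (c * a)
  apply le_antisymm hDC
  intro k f hf
  have h2 : emb k f ∈ sp D k := by
    rw [h1]
    exact Submodule.subset_span ⟨f, hf, rfl⟩
  have h3 := key k _ h2 1
  have h4 : (fun x => π (1 * emb k f x)) = f := by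
    funext x
    rw [one_mul]
    exact hπ1 (f x)
  rw [h4] at h3
  exact h3

/-- Devissage along an exact sequence of coefficient groups. -/
theorem det_exact {B₁ : Type u₂} {B : Type u₃} {B₂ : Type u₄} [AddCommGroup B₁] [AddCommGroup B]
    [AddCommGroup B₂] (j : B₁ →+ B) (q : B →+ B₂) (hex : ∀ b, q b = 0 → ∃ b₁, j b₁ = b)
    (h₁ : Det ℤ B₁ A) (h₂ : Det ℤ B₂ A) : Det ℤ B A := by
  obtain ⟨r₁, h₁⟩ := h₁
  obtain ⟨r₂, h₂⟩ := h₂
  refine ⟨max r₁ r₂, fun D C hD hC hDC hlev => ?_⟩
  have e1 : D r₁ = C r₁ := level_eq hC hD (le_max_left _ _) hlev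
  have e2 : D r₂ = C r₂ := level_eq hC hD (le_max_right _ _) hlev
  have hcl1 : ∀ E : (∀ k : ℕ, Submodule ℤ ((Fin (k + 1) → A) → B)), Cl E →
      Cl (fun k => (E k).comap (j.toIntLinearMap.compLeft (Fin (k + 1) → A))) := by
    intro E hE k l S f hf
    exact hE k l S _ hf
  have hcl2 : ∀ E : (∀ k : ℕ, Submodule ℤ ((Fin (k + 1) → A) → B)), Cl E →
      Cl (fun k => (E k).map (q.toIntLinearMap.compLeft (Fin (k + 1) → A))) := by
    rintro E hE k l S _ ⟨f, hf, rfl⟩
    exact ⟨pull ℤ B A S f, hE k l S f hf, rfl⟩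
  have f1 := h₁ _ _ (hcl1 D hD) (hcl1 C hC) (fun k => Submodule.comap_mono (hDC k))
    (by simp only [e1])
  have f2 := h₂ _ _ (hcl2 D hD) (hcl2 C hC) (fun k => Submodule.map_mono (hDC k))
    (by simp only [e2])
  apply le_antisymm hDC
  intro k f hf
  have g1 : q.toIntLinearMap.compLeft (Fin (k + 1) → A) f ∈
      (D k).map (q.toIntLinearMap.compLeft (Fin (k + 1) → A)) := by
    have h5 : (D k).map (q.toIntLinearMap.compLeft (Fin (k + 1) → A)) =
        (C k).map (q.toIntLinearMap.compLeft (Fin (k + 1) → A)) := congrFun f2 k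
    rw [h5]
    exact ⟨f, hf, rfl⟩
  obtain ⟨g, hg, hgf⟩ := g1
  have g2 : ∀ x, ∃ b₁, j b₁ = (f - g) x := by
    intro x
    apply hex
    have := congrFun hgf x
    change q (g x) = q (f x) at this
    rw [Pi.sub_apply, map_sub, this, sub_self]
  choose u hu using g2
  have g3 : u ∈ (C k).comap (j.toIntLinearMap.compLeft (Fin (k + 1) → A)) := by
    rw [Submodule.mem_comap]
    have : j.toIntLinearMap.compLeft (Fin (k + 1) → A) u = f - g := funext hu
    rw [this]
    exact Submodule.sub_mem _ hf (hDC k hg)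
  have g4 : (D k).comap (j.toIntLinearMap.compLeft (Fin (k + 1) → A)) =
      (C k).comap (j.toIntLinearMap.compLeft (Fin (k + 1) → A)) := congrFun f1 k
  rw [← g4, Submodule.mem_comap] at g3
  have : j.toIntLinearMap.compLeft (Fin (k + 1) → A) u = f - g := funext hu
  rw [this] at g3
  have := Submodule.add_mem _ g3 hg
  simpa using this

theorem det_main [Finite A] (n : ℕ) : ∀ (B : Type u₂) [AddCommGroup B] [Finite B],
    Nat.card B = n → Nat.Coprime (Nat.card A) (Nat.card B) → Det ℤ B A := by
  induction n using Nat.strong_induction_on with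
  | _ n ih =>
    intro B _ _ hn hco
    by_cases h1 : Nat.card B = 1
    · have : Subsingleton B := (Nat.card_eq_one_iff_unique.1 h1).1
      refine ⟨0, fun D C _ _ hDC _ => le_antisymm hDC (fun k f _ => ?_)⟩
      have : f = 0 := Subsingleton.elim _ _
      rw [this]; exact Submodule.zero_mem _
    · obtain ⟨p, hp, hpB⟩ := Nat.exists_prime_and_dvd h1
      have : Fact p.Prime := ⟨hp⟩
      have : Fintype B := Fintype.ofFinite B
      obtain ⟨b, hb⟩ := exists_prime_addOrderOf_dvd_card (G := B) p
        (by rwa [← Nat.card_eq_fintype_card])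
      let H : AddSubgroup B := AddSubgroup.zmultiples b
      have hH : Nat.card H = p := by rw [Nat.card_zmultiples, hb]
      have hcard : Nat.card B = Nat.card (B ⧸ H) * Nat.card H :=
        AddSubgroup.card_eq_card_quotient_mul_card_addSubgroup H
      have hpos : 0 < Nat.card (B ⧸ H) := Nat.card_pos
      have hlt : Nat.card (B ⧸ H) < n := by
        rw [← hn, hcard, hH]
        exact (Nat.lt_mul_iff_one_lt_right hpos).2 hp.one_lt
      have hco2 : Nat.Coprime (Nat.card A) (Nat.card (B ⧸ H)) :=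
        hco.coprime_dvd_right ⟨_, hcard⟩
      have hpA : ¬ p ∣ Nat.card A := fun hc =>
        hp.one_lt.ne' (Nat.dvd_one.1 (hco ▸ Nat.dvd_gcd hc hpB))
      have hdvd : Monoid.exponent (Multiplicative A) ∣ Nat.card A :=
        Group.exponent_dvd_nat_card (G := Multiplicative A)
      have hexp : ¬ p ∣ Monoid.exponent (Multiplicative A) := fun hc => hpA (hc.trans hdvd)
      have : NeZero ((Monoid.exponent (Multiplicative A) : ℕ) : ZMod p) :=
        ⟨fun hc => hexp ((ZMod.natCast_eq_zero_iff _ _).1 hc)⟩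
      have hK : Det (AlgebraicClosure (ZMod p)) (AlgebraicClosure (ZMod p)) A := det_K _ _
      have hZ : Det ℤ (ZMod p) A := det_descend p _ hK
      have hb0 : (zmultiplesHom B b) (p : ℤ) = 0 := by
        rw [zmultiplesHom_apply, natCast_zsmul, ← hb]
        exact addOrderOf_nsmul_eq_zero b
      refine det_exact (ZMod.lift p ⟨zmultiplesHom B b, hb0⟩) (QuotientAddGroup.mk' H) ?_ hZ
        (ih _ hlt (B ⧸ H) rfl hco2)
      intro c hc
      rw [QuotientAddGroup.mk'_apply, QuotientAddGroup.eq_zero_iff] at hc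
      obtain ⟨m, hm⟩ := AddSubgroup.mem_zmultiples_iff.1 hc
      refine ⟨(m : ZMod p), ?_⟩
      rw [ZMod.lift_coe]
      exact hm

end

end Pool.Agent.Q16.Clon
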