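import Pool.Agent.Q16.Clon.Defs
import Pool.Agent.Q16.Clon.Devis

set_option autoImplicit false

namespace Pool.Agent.Q16.Clon

universe u₁ u₂ u₃ u₄

section

variable {R : Type u₁} {S : Type u₂} {A : Type u₃} {B : Type u₄} [Ring R] [Ring S]
    [AddCommGroup A] [Module R A] [AddCommGroup B] [Module S B]

/-- the family of subgroups of a nonempty clonoid -/
def fam {C : Set (Op A B)} (hC : IsClonoid R S C) (hne : C.Nonempty) (k : ℕ) :
    Submodule ℤ ((Fin (k + 1) → A) → B) where
  carrier := {f | (⟨k, f⟩ : Op A B) ∈ C}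
  zero_mem' := by
    obtain ⟨⟨n, f⟩, hf⟩ := hne
    have h1 := hC.inner n k f (fun _ _ => 0) hf (fun i => ⟨0, fun x => by simp⟩)
    have h2 := hC.outer 0 k (fun _ => 0) (fun _ => fun _ => f (fun _ => 0))
      ⟨0, fun x => by simp⟩ (fun _ => h1)
    exact h2
  add_mem' := by
    intro f g hf hg
    have h2 := hC.outer 1 k (fun b => b 0 + b 1) ![f, g] ⟨![1, 1], fun x => by
      simp [Fin.sum_univ_two]⟩ (fun i => by
        fin_cases i
        · exact hf
        · exact hg)
    exact h2
  smul_mem' := by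
    intro c f hf
    have h2 := hC.outer 0 k (fun b => c • b 0) (fun _ => f) ⟨fun _ => (c : S), fun x => by
      simp [Int.cast_smul_eq_zsmul]⟩ (fun _ => hf)
    exact h2

theorem fam_cl {C : Set (Op A B)} (hC : IsClonoid R S C) (hne : C.Nonempty) : Cl (fam hC hne) := by
  intro k l M f hf
  have h1 := hC.inner k l f (fun i x => ∑ j, M i j • x j) hf
    (fun i => ⟨fun j => (M i j : R), fun x => by simp [Int.cast_smul_eq_zsmul]⟩)
  exact h1

theorem main [Finite A] [Finite B] (hco : Nat.Coprime (Nat.card A) (Nat.card B)) :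
    {C : Set (Op A B) | IsClonoid R S C}.Finite := by
  obtain ⟨r, hr⟩ := det_main (A := A) (Nat.card B) B rfl hco
  have hsub : {C : Set (Op A B) | IsClonoid R S C} ⊆
      {∅} ∪ {C | IsClonoid R S C ∧ C.Nonempty} := by
    intro C hC
    rcases C.eq_empty_or_nonempty with h | h
    · exact Or.inl h
    · exact Or.inr ⟨hC, h⟩
  refine Set.Finite.subset ((Set.finite_singleton _).union ?_) hsub
  refine Set.Finite.of_finite_image
    (f := fun C : Set (Op A B) => {f : (Fin (r + 1) → A) → B | (⟨r, f⟩ : Op A B) ∈ C})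
    (Set.toFinite _) ?_
  rintro C ⟨hC, hCne⟩ C' ⟨hC', hCne'⟩ hlev
  have hlev' : fam hC hCne r = fam hC' hCne' r := by
    ext f
    exact Set.ext_iff.1 hlev f
  have hcl := (fam_cl hC hCne).inf (fam_cl hC' hCne')
  have e1 := hr _ _ hcl (fam_cl hC hCne) (fun k => inf_le_left) (by
    change fam hC hCne r ⊓ fam hC' hCne' r = fam hC hCne r
    rw [hlev', inf_idem])
  have e2 := hr _ _ hcl (fam_cl hC' hCne') (fun k => inf_le_right) (by
    change fam hC hCne r ⊓ fam hC' hCne' r = fam hC' hCne' r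
    rw [hlev', inf_idem])
  have e3 : fam hC hCne = fam hC' hCne' := e1.symm.trans e2
  ext ⟨n, f⟩
  have e4 := congrFun e3 n
  exact SetLike.ext_iff.1 e4 f

end

end Pool.Agent.Q16.Clon
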